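import Pool.Agent.H34.GZ.Targets1
import Pool.Agent.H34.GM.Targets

/-!
Row CVZ: covering; integrals of invariant non negative functions over a fundamental domain of
`GL_m(Z)`.
-/

set_option autoImplicit false

namespace Pool.Agent.H63.GZ

open MeasureTheory Pool.Agent.H34.GM Pool.Agent.H34.GZ

/-- left multiplication as a map on `V m` -/
private def cvzMul {m : ℕ} (a : Mat m) (z : V m) : V m := fun i j => (a * mt z) i j

private lemma cvz_measurable {m : ℕ} (a : Mat m) : Measurable (cvzMul a) := by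
  unfold cvzMul
  refine measurable_pi_lambda _ (fun i => measurable_pi_lambda _ (fun j => ?_))
  have h : (fun z : V m => (a * mt z) i j) = fun z : V m => ∑ k, a i k * z k j := by
    funext z
    simp [Matrix.mul_apply]
  rw [h]
  fun_prop

private lemma cvz_mt {m : ℕ} (a : Mat m) (z : V m) : mt (cvzMul a z) = a * mt z := by
  ext i j
  simp [cvzMul]

private lemma cvz_comp {m : ℕ} (a c : Mat m) (z : V m) :
    cvzMul a (cvzMul c z) = cvzMul (a * c) z := by
  unfold cvzMul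
  funext i j
  have h : (mt (fun i j => (c * mt z) i j) : Mat m) = c * mt z := by
    ext i j
    simp
  rw [h, Matrix.mul_assoc]

private lemma cvz_one {m : ℕ} (z : V m) : cvzMul (1 : Mat m) z = z := by
  unfold cvzMul
  funext i j
  simp

private lemma cvz_det {m : ℕ} (hm1 : 1 ≤ m) (z : V m) (h : 1 ≤ aN (mt z)) : (mt z).det ≠ 0 := by
  intro h0
  unfold aN at h
  rw [h0, abs_zero, Real.zero_rpow] at h
  · linarith
  · have : (0 : ℝ) < m := by exact_mod_cast hm1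
    positivity

private lemma cvz_cmul {m : ℕ} (α β : ZM m) : cR (α * β) = cR α * cR β := by
  unfold cR
  exact Matrix.map_mul (f := Int.castRingHom ℝ)

private lemma cvz_cone {m : ℕ} : cR (1 : ZM m) = 1 := by
  unfold cR
  exact Matrix.map_one _ Int.cast_zero Int.cast_one

private lemma cvz_cdet {m : ℕ} (γ : ZM m) (h : IsUnit γ) : |(cR γ).det| = 1 := by
  have h1 : (cR γ).det = ((γ.det : ℤ) : ℝ) := by
    unfold cR
    exact (Int.cast_det γ).symm
  have h2 : IsUnit γ.det := (Matrix.isUnit_iff_isUnit_det γ).1 h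
  rw [h1]
  rcases Int.isUnit_iff.1 h2 with h3 | h3 <;> rw [h3] <;> norm_num

private lemma cvz_unit_inv {m : ℕ} (γ : {γ : ZM m // IsUnit γ}) :
    ∃ δ : ZM m, IsUnit δ ∧ (γ : ZM m) * δ = 1 ∧ δ * (γ : ZM m) = 1 := by
  obtain ⟨g, u, rfl⟩ := γ
  exact ⟨(u⁻¹ : (ZM m)ˣ), (u⁻¹).isUnit, u.mul_inv, u.inv_mul⟩

theorem pf_CVZ (hHAR : Pool.Agent.H34.GM.T_HAR) : T_CVZ := by
  intro m hm1 D hD Ω hΩ hcov f hf hinv
  have hcnt : Countable {γ : ZM m // IsUnit γ} := by
    have : Countable (ZM m) := inferInstanceAs (Countable (Fin m → Fin m → ℤ))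
    exact Subtype.countable
  -- inverses
  choose δ hδ using fun γ : {γ : ZM m // IsUnit γ} => cvz_unit_inv γ
  have hδ1 : ∀ γ : {γ : ZM m // IsUnit γ}, cR (γ : ZM m) * cR (δ γ) = 1 := fun γ => by
    rw [← cvz_cmul, (hδ γ).2.1, cvz_cone]
  have hδ2 : ∀ γ : {γ : ZM m // IsUnit γ}, cR (δ γ) * cR (γ : ZM m) = 1 := fun γ => by
    rw [← cvz_cmul, (hδ γ).2.2, cvz_cone]
  -- the sets
  set DD : {γ : ZM m // IsUnit γ} → Set (V m) := fun γ => D ∩ cvzMul (cR (γ : ZM m)) ⁻¹' Ω with hDD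
  set EE : {γ : ZM m // IsUnit γ} → Set (V m) := fun γ => cvzMul (cR (δ γ)) ⁻¹' D ∩ Ω with hEE
  have hDDm : ∀ γ, MeasurableSet (DD γ) := fun γ =>
    hD.meas.inter (cvz_measurable _ hΩ)
  have hEEm : ∀ γ, MeasurableSet (EE γ) := fun γ =>
    (cvz_measurable _ hD.meas).inter hΩ
  have hsub : D ⊆ ⋃ γ, DD γ := by
    intro z hz
    obtain ⟨γ, hγ, hγΩ⟩ := hcov z (hD.shell z hz)
    exact Set.mem_iUnion.mpr ⟨⟨γ, hγ⟩, hz, hγΩ⟩
  have hdisj : Pairwise (fun γ γ' => Disjoint (EE γ) (EE γ')) := by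
    intro γ γ' hne
    rw [Set.disjoint_left]
    intro w hw hw'
    apply hne
    have h1 : cvzMul (cR (δ γ)) w ∈ D := hw.1
    have h2 : cvzMul (cR (δ γ')) w ∈ D := hw'.1
    have hsh := hD.shell _ h1
    obtain ⟨g0, -, huniq⟩ := hD.fund _ hsh.1 hsh.2
    have e1 : (1 : ZM m) = g0 := by
      apply huniq
      refine ⟨isUnit_one, ?_⟩
      have h5 : cvzMul (cR (1 : ZM m)) (cvzMul (cR (δ γ)) w) ∈ D := by
        rw [cvz_cone, cvz_one]; exact h1
      exact h5
    have e2 : δ γ' * (γ : ZM m) = g0 := by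
      apply huniq
      refine ⟨(hδ γ').1.mul γ.2, ?_⟩
      have h3 : cvzMul (cR (δ γ' * (γ : ZM m))) (cvzMul (cR (δ γ)) w) = cvzMul (cR (δ γ')) w := by
        rw [cvz_comp, cvz_cmul, Matrix.mul_assoc, hδ1 γ, Matrix.mul_one]
      have h4 : cvzMul (cR (δ γ' * (γ : ZM m))) (cvzMul (cR (δ γ)) w) ∈ D := by
        rw [h3]; exact h2
      exact h4
    have e3 : δ γ' * (γ : ZM m) = 1 := by rw [e2, e1]
    apply Subtype.ext
    calc (γ : ZM m) = (γ' : ZM m) * δ γ' * (γ : ZM m) := by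
          rw [(hδ γ').2.1, Matrix.one_mul]
      _ = (γ' : ZM m) * (δ γ' * (γ : ZM m)) := by rw [Matrix.mul_assoc]
      _ = (γ' : ZM m) := by rw [e3, Matrix.mul_one]
  have hpiece : ∀ γ : {γ : ZM m // IsUnit γ},
      ∫⁻ z in DD γ, f z ∂(hm m) = ∫⁻ z in EE γ, f z ∂(hm m) := by
    intro γ
    rw [← lintegral_indicator (hDDm γ), ← lintegral_indicator (hEEm γ)]
    have hdet : (cR (γ : ZM m)).det ≠ 0 := by
      intro h0
      have h1 := congrArg Matrix.det (hδ1 γ)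
      rw [Matrix.det_mul, h0, zero_mul, Matrix.det_one] at h1
      exact zero_ne_one h1
    have hh := ((hHAR m hm1).1 (cR (γ : ZM m)) hdet ((EE γ).indicator f)
      (hf.indicator (hEEm γ))).1
    rw [← hh]
    refine lintegral_congr (fun z => ?_)
    change (DD γ).indicator f z = (EE γ).indicator f (cvzMul (cR (γ : ZM m)) z)
    have hback : cvzMul (cR (δ γ)) (cvzMul (cR (γ : ZM m)) z) = z := by
      rw [cvz_comp, hδ2 γ, cvz_one]
    by_cases hz : z ∈ DD γ
    · have hz' : cvzMul (cR (γ : ZM m)) z ∈ EE γ := by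
        refine ⟨?_, hz.2⟩
        change cvzMul (cR (δ γ)) (cvzMul (cR (γ : ZM m)) z) ∈ D
        rw [hback]; exact hz.1
      rw [Set.indicator_of_mem hz, Set.indicator_of_mem hz']
      exact (hinv _ γ.2 z (cvz_det hm1 z (hD.shell z hz.1).1)).symm
    · have hz' : cvzMul (cR (γ : ZM m)) z ∉ EE γ := by
        intro h
        apply hz
        refine ⟨?_, h.2⟩
        have h5 : cvzMul (cR (δ γ)) (cvzMul (cR (γ : ZM m)) z) ∈ D := h.1
        rw [hback] at h5; exact h5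
      rw [Set.indicator_of_notMem hz, Set.indicator_of_notMem hz']
  have hEsub : ∀ γ, EE γ ⊆ Ω ∩ Shell m := by
    intro γ w hw
    refine ⟨hw.2, ?_⟩
    have h1 := hD.shell _ hw.1
    have h2 : aN (mt (cvzMul (cR (δ γ)) w)) = aN (mt w) := by
      unfold aN
      rw [cvz_mt, Matrix.det_mul, abs_mul, cvz_cdet _ (hδ γ).1, one_mul]
    rw [h2] at h1
    exact h1
  calc ∫⁻ z in D, f z ∂(hm m) ≤ ∫⁻ z in ⋃ γ, DD γ, f z ∂(hm m) :=
        lintegral_mono_set hsub
    _ ≤ ∑' γ, ∫⁻ z in DD γ, f z ∂(hm m) := lintegral_iUnion_le _ _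
    _ = ∑' γ, ∫⁻ z in EE γ, f z ∂(hm m) := tsum_congr hpiece
    _ = ∫⁻ z in ⋃ γ, EE γ, f z ∂(hm m) := (lintegral_iUnion hEEm hdisj _).symm
    _ ≤ ∫⁻ z in Ω ∩ Shell m, f z ∂(hm m) := by
        apply lintegral_mono_set
        exact Set.iUnion_subset hEsub

end Pool.Agent.H63.GZ
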